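import Mathlib
import Pool.Agent.U923.RS.B
import Pool.Agent.H389R3.PR1

/-!
# Parry powers of Perron numbers whose minimal polynomial has a nonreciprocal factor over some field

Let `β` be a Perron number of degree `n`, let `α` be one of its conjugates, let `F` be any field of
complex numbers (of finite or infinite degree, real or not), and let
`X ^ d + a_(d-1) X ^ (d-1) + ... + a_0` be the minimal polynomial of `α` over `F`, a factor of the
minimal polynomial of `β`.

Suppose that for some `k` with `0 < k ≤ d` the coefficients `a_(d-i)`, `0 < i < k`, are elements of CM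
fields or totally real fields and satisfy `a_i = a_0 * conj a_(d-i)`, and that either `a_(d-k)` is such
an element and `a_k ≠ a_0 * conj a_(d-k)`, or `a_k = 0 ≠ a_(d-k)`. Nothing is supposed about the other
coefficients. (For instance: the least exponents `e₁, e₂ > 0` with `a_(e₁) ≠ 0` and `a_(d-e₂) ≠ 0` are
different, for arbitrary coefficients in `F`.)

If `β ^ (4 d) < (5/2) ^ n`, in particular if `β ^ 4 < 5/2`, and so for all `β` below Lehmer's number,
then only finitely many powers of `β` are Parry numbers. So no such `β` is a Salem number.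
-/

set_option autoImplicit false

open Polynomial ComplexConjugate

namespace Pool.Agent.Results.MP_1f45fc_nt.FactorsOverArbitraryFields

/-- `β > 1` is an algebraic integer whose other conjugates have modulus less than `β`. -/
def IsPerron (β : ℝ) : Prop :=
  1 < β ∧ IsIntegral ℤ β ∧
    ∀ z : ℂ, aeval z (minpoly ℤ β) = 0 → z ≠ (β : ℂ) → ‖z‖ < β

/-- The set of the `k ≥ 1` such that `β ^ k` is a Parry number, that is, the orbit of `1` under
`x ↦ fract (β ^ k * x)` is finite. -/
def parryPowers (β : ℝ) : Set ℕ :=
  {k : ℕ | 1 ≤ k ∧ Set.Finite (Set.range (fun j : ℕ =>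
    (fun x : ℝ => Int.fract (β ^ k * x))^[j] (1 : ℝ)))}

/-- On the conjugates of `z` complex conjugation is given by one rational polynomial (this is so for
the elements of totally real fields and of CM fields). -/
def IsCM (z : ℂ) : Prop :=
  ∃ P : ℚ[X], ∀ w : ℂ, aeval w (minpoly ℚ z) = 0 → conj w = aeval w P

/-- The degree of `α` over `F`. -/
noncomputable def degree (F : IntermediateField ℚ ℂ) (α : ℂ) : ℕ := (minpoly F α).natDegree

/-- The coefficients of the minimal polynomial of `α` over `F`, as complex numbers. -/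
noncomputable def coefficient (F : IntermediateField ℚ ℂ) (α : ℂ) (i : ℕ) : ℂ :=
  ((minpoly F α).coeff i : F)

/-- The minimal polynomial `X ^ d + a_(d-1) X ^ (d-1) + ... + a_0` of `α` over `F` is such that for some
`k` with `0 < k ≤ d` and all `0 < i < k` the coefficient `a_(d-i)` is an element as above and
`a_i = a_0 * conj a_(d-i)`, and either `a_(d-k)` is such an element and
`a_k ≠ a_0 * conj a_(d-k)`, or `a_k = 0 ≠ a_(d-k)`. -/
def DepartsFromReciprocity (F : IntermediateField ℚ ℂ) (α : ℂ) : Prop :=
  ∃ k : ℕ, 0 < k ∧ k ≤ degree F α ∧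
    (∀ i, 0 < i → i < k → IsCM (coefficient F α (degree F α - i)) ∧
      coefficient F α i = coefficient F α 0 * conj (coefficient F α (degree F α - i))) ∧
    ((IsCM (coefficient F α (degree F α - k)) ∧
      coefficient F α k ≠ coefficient F α 0 * conj (coefficient F α (degree F α - k))) ∨
      (coefficient F α k = 0 ∧ coefficient F α (degree F α - k) ≠ 0))

/-- **Parry powers and factors of the minimal polynomial over arbitrary fields.** -/
theorem result (β : ℝ) (hβ : IsPerron β) (α : ℂ) (hα : aeval α (minpoly ℤ β) = 0)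
    (F : IntermediateField ℚ ℂ) (hF : DepartsFromReciprocity F α)
    (hlt : β ^ (4 * degree F α) < (5 / 2) ^ (minpoly ℤ β).natDegree ∨ β ^ 4 < 5 / 2) :
    (parryPowers β).Finite := by
  obtain ⟨h1, h2, h3⟩ := hβ
  have hgm : (minpoly ℤ β).Monic := minpoly.monic h2
  have hαi : IsIntegral ℤ α := ⟨minpoly ℤ β, hgm, by rw [← aeval_def]; exact hα⟩
  have hmin : minpoly ℤ α = minpoly ℤ β := by
    have e1 := minpoly.isIntegrallyClosed_dvd hαi hα
    have e2 : Associated (minpoly ℤ α) (minpoly ℤ β) :=
      (minpoly.irreducible hαi).associated_of_dvd (minpoly.irreducible h2) e1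
    exact eq_of_monic_of_associated (minpoly.monic hαi) hgm e2
  have hα0 : α ≠ 0 := by
    rintro rfl
    have e1 : (minpoly ℤ β).coeff 0 = 0 := by
      have e2 := hα
      rw [aeval_def, eval₂_at_zero] at e2
      have e3 : (((minpoly ℤ β).coeff 0 : ℤ) : ℂ) = 0 := e2
      exact_mod_cast e3
    have hβ0 : β ≠ 0 := by linarith
    have e4 : (minpoly ℚ β).coeff 0 = 0 := by
      rw [minpoly.isIntegrallyClosed_eq_field_fractions' ℚ h2, coeff_map, e1, map_zero]
    have e5 : IsIntegral ℚ β := h2.tower_top
    exact minpoly.coeff_zero_ne_zero e5 hβ0 e4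
  have hαF : IsIntegral F α := hαi.tower_top
  have hd : 0 < degree F α := minpoly.natDegree_pos hαF
  have hdn : degree F α ≤ (minpoly ℤ β).natDegree := by
    have e1 : minpoly F α ∣ (minpoly ℤ α).map (algebraMap ℤ F) := by
      apply minpoly.dvd
      rw [aeval_map_algebraMap]
      exact minpoly.aeval ℤ α
    have e2 := natDegree_le_of_dvd e1 ((minpoly.monic hαi).map _).ne_zero
    rw [(minpoly.monic hαi).natDegree_map, hmin] at e2
    exact e2
  have hlt' : β ^ (4 * degree F α) < (5 / 2) ^ (minpoly ℤ β).natDegree := by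
    rcases hlt with h | h
    · exact h
    · calc β ^ (4 * degree F α) = (β ^ 4) ^ degree F α := by rw [pow_mul]
        _ < (5 / 2) ^ degree F α := pow_lt_pow_left₀ h (by positivity) hd.ne'
        _ ≤ (5 / 2) ^ (minpoly ℤ β).natDegree := pow_le_pow_right₀ (by norm_num) hdn
  by_contra hinf
  have hM := Pool.Agent.H389R3.PR.mahler_eq h1 h2
    (fun z hz hne => Pool.Agent.H389R3.PR.conj_le_one h1 h2 h3 hinf hz hne)
  have h4 := U923.RS.main F hαi hα0 hF
  rw [hmin, hM] at h4
  have hd' : (0 : ℝ) < (minpoly F α).natDegree := by exact_mod_cast hd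
  have hn' : (0 : ℝ) < (minpoly ℤ β).natDegree := by
    exact_mod_cast minpoly.natDegree_pos h2
  rw [div_div, div_le_div_iff₀ (by positivity) hn'] at h4
  have h5 := Real.log_lt_log (by positivity) hlt'
  rw [Real.log_pow, Real.log_pow] at h5
  push_cast at h5
  have h6 : (degree F α : ℝ) = (minpoly F α).natDegree := rfl
  rw [h6] at h5
  linarith

end Pool.Agent.Results.MP_1f45fc_nt.FactorsOverArbitraryFields
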