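import Mathlib
import Pool.Agent.U72.NP.RelRate
import Pool.Agent.H389R3.PR1

/-!
# Parry powers of Perron numbers and the angular discrepancy of the packets of conjugates

Let `β` be a Perron number. Its minimal polynomial over the field `ℚ(μ_∞)` of all roots of unity is
`F(ω₀, X)` for some monic `F ∈ ℤ[T][X]` and some primitive `m`-th root of unity `ω₀`; the zeros of the
polynomials `F(ω, X)`, `ω` running over the primitive `m`-th roots of unity, are the conjugates of
`β`, divided into packets. Let `D` be the mean over `ω` of the angular discrepancy of the packet over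
`ω`: the root mean square over `0 ≤ x ≤ 1` of `N(x) - n (1 - x) - b(ω)`, where `n` is the number of
zeros of the packet, `N(x)` the number of those with argument larger than `x` turns and `b(ω)` any
real number. There is an absolute constant `c > 0` such that for all number fields `K ⊆ ℂ`: if

  `[K(μ_∞)(β) : K(μ_∞)] * log β * (1 + D) ^ 6 < (c / [K : ℚ]) * [ℚ(β) : ℚ]`,

then `β ^ k` is a Parry number for only finitely many `k`.

For instance, if `β` is smaller than Lehmer's number and infinitely many powers of `β` are Parry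
numbers, then the mean discrepancy `D` of the packets of conjugates over `ℚ(μ_∞)` satisfies
`(1 + D) ^ 6 ≥ 6 c a`, where `a` is the degree of the largest abelian subfield of `ℚ(β)`.

Method. If infinitely many powers of `β` are Parry numbers, then all the other conjugates of `β` are
in the closed unit disc, so that `log β` is the height of `β` times its degree, and the height is
bounded from below by the relative Lehmer inequality over `K(μ_∞)` with the mean discrepancy.
-/

set_option autoImplicit false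

open Polynomial

namespace Pool.Agent.Results.MP_1f45fc_nt.ParryDiscrepancy

noncomputable section

/-- `β > 1` is an algebraic integer whose other conjugates have modulus less than `β`. -/
def IsPerron (β : ℝ) : Prop :=
  1 < β ∧ IsIntegral ℤ β ∧
    ∀ z : ℂ, aeval z (minpoly ℤ β) = 0 → z ≠ (β : ℂ) → ‖z‖ < β

/-- The set of the `k ≥ 1` such that `β ^ k` is a Parry number, that is, the orbit of `1` under
`x ↦ fract (β ^ k * x)` is finite. -/
def parryPowers (β : ℝ) : Set ℕ :=
  {k : ℕ | 1 ≤ k ∧ Set.Finite (Set.range (fun j : ℕ =>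
    (fun x : ℝ => Int.fract (β ^ k * x))^[j] (1 : ℝ)))}

/-- The degree of `β`. -/
def deg (β : ℝ) : ℕ := (minpoly ℤ β).natDegree

/-- the field `ℚ(μ_∞) ⊆ ℂ` generated by all roots of unity -/
def QAb : IntermediateField ℚ ℂ :=
  IntermediateField.adjoin ℚ {z : ℂ | ∃ n : ℕ, 0 < n ∧ z ^ n = 1}

/-- the polynomial `F(ω, X)`, for `F ∈ ℤ[T][X]` -/
def spec {A : Type*} [CommRing A] (ω : A) (F : ℤ[X][X]) : A[X] :=
  F.map (aeval ω : ℤ[X] →ₐ[ℤ] A).toRingHom

/-- The argument of a complex number in turns, in the interval `[0, 1)`. -/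
def turn (z : ℂ) : ℝ := Int.fract (Complex.arg z / (2 * Real.pi))

/-- The number of the zeros of the complex polynomial `P`, counted with multiplicity, whose argument
is larger than `x` turns. -/
def above (P : ℂ[X]) (x : ℝ) : ℕ := (P.roots.filter (fun z => x < turn z)).card

/-- The angular discrepancy of the zeros of `P` with shift `b`: the root mean square over `[0, 1]` of
`N(x) - n (1 - x) - b`, where `N(x)` is the number of zeros above `x` and `n` the degree. It is not
divided by `n`. -/
def discrepancy (P : ℂ[X]) (b : ℝ) : ℝ :=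
  Real.sqrt (∫ x in (0:ℝ)..1, ((above P x : ℝ) - P.natDegree * (1 - x) - b) ^ 2)

/-- The mean over the primitive `m`-th roots of unity `ω` of the angular discrepancy of the zeros of
`F(ω, X)` with the shift `b ω`. -/
def meanDiscrepancy (m : ℕ) (F : ℤ[X][X]) (b : ℂ → ℝ) : ℝ :=
  (∑ ω ∈ primitiveRoots m ℂ, discrepancy (spec ω F) (b ω)) / Nat.totient m

/-- **Parry powers of Perron numbers and mean angular discrepancy.** -/
theorem result : ∃ c : ℝ, 0 < c ∧ ∀ β : ℝ, IsPerron β →
    (∃ (m : ℕ) (ω₀ : QAb) (F : ℤ[X][X]), 0 < m ∧ IsPrimitiveRoot ω₀ m ∧ F.Monic ∧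
      minpoly QAb (β : ℂ) = spec ω₀ F) ∧
    ∀ (m : ℕ) (ω₀ : QAb) (F : ℤ[X][X]), 0 < m → IsPrimitiveRoot ω₀ m → F.Monic →
      minpoly QAb (β : ℂ) = spec ω₀ F → ∀ b : ℂ → ℝ,
      ∀ K : IntermediateField ℚ ℂ, FiniteDimensional ℚ K →
        (minpoly (K ⊔ QAb : IntermediateField ℚ ℂ) (β : ℂ)).natDegree * Real.log β *
          (1 + meanDiscrepancy m F b) ^ 6 < c / Module.finrank ℚ K * deg β →
        (parryPowers β).Finite := by
  obtain ⟨c, hc, h⟩ := Pool.Agent.U72.NP.rel_rate
  refine ⟨c, hc, ?_⟩
  rintro β ⟨hβ1, hβ, hP⟩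
  have hint : IsIntegral ℤ (β : ℂ) := hβ.map (Complex.ofRealHom.toIntAlgHom)
  have h0 : (β : ℂ) ≠ 0 := by
    rw [Ne, Complex.ofReal_eq_zero]; linarith
  have hr : ∀ n : ℕ, 0 < n → (β : ℂ) ^ n ≠ 1 := by
    intro n hn h1
    have h2 : β ^ n = 1 := by exact_mod_cast h1
    have h3 := one_lt_pow₀ hβ1 hn.ne'
    linarith
  refine ⟨(h β hint h0 hr).1, ?_⟩
  intro m ω₀ F hm hω hF hmin b K hK hlt
  by_contra hinf
  have h1 := (h β hint h0 hr).2 m ω₀ F hm hω hF hmin b K
  have hmp : minpoly ℤ (β : ℂ) = minpoly ℤ β :=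
    minpoly.algebraMap_eq (B := ℝ) (B' := ℂ) (algebraMap ℝ ℂ).injective β
  have hM := Pool.Agent.H389R3.PR.mahler_eq hβ1 hβ
    (fun z hz hne => Pool.Agent.H389R3.PR.conj_le_one hβ1 hβ hP hinf hz hne)
  change c / Module.finrank ℚ K / (1 + meanDiscrepancy m F b) ^ 6 ≤
    (minpoly (K ⊔ QAb : IntermediateField ℚ ℂ) (β : ℂ)).natDegree *
      (Real.log ((minpoly ℤ (β : ℂ)).map (Int.castRingHom ℂ)).mahlerMeasure /
        (minpoly ℤ (β : ℂ)).natDegree) at h1
  rw [hmp, hM] at h1
  have hD0 : 0 ≤ meanDiscrepancy m F b :=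
    div_nonneg (Finset.sum_nonneg fun _ _ => Real.sqrt_nonneg _) (Nat.cast_nonneg _)
  have hd : (0 : ℝ) < (minpoly ℤ β).natDegree := by
    exact_mod_cast minpoly.natDegree_pos hβ
  have hp : (0 : ℝ) < (1 + meanDiscrepancy m F b) ^ 6 := by positivity
  rw [div_le_iff₀ hp, ← mul_div_assoc, div_mul_eq_mul_div, le_div_iff₀ hd] at h1
  unfold deg at hlt
  linarith

end

end Pool.Agent.Results.MP_1f45fc_nt.ParryDiscrepancy
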