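import Mathlib
import Pool.Agent.U72.NP.Lor2

/-!
# Salem numbers: the axes of Lorentzian isometries of small spectral radius avoid the fixed spaces of
# small codimension

The question is equivalent to: there is no Salem number below Lehmer's number.  Let `S` be a real
symmetric form of signature `(n - 1, 1)` and `A` an isometry of `S` with integral characteristic
polynomial and with eigenvectors `u`, `v` for the real eigenvalues `β > 1` and `1 / β` (for instance
`A ∈ O(L)` for a lattice `L` over `ℤ`, or over the integers of a totally real number field, `S` being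
then the sum of the conjugate forms; `β` is a Salem number or a quadratic unit).  The axis of `A` is the
set of the lines in the span of `u`, `v` on which `S` is negative.  Let `B` be a second isometry of `S`
with integral characteristic polynomial, `rank (A - B) ≤ s`, which moves some point `x` of hyperbolic
space by the distance `d`, `cosh d ≤ H`.

1. If the characteristic polynomial of `A` is irreducible and different from that of `B`, then
   `log β ≥ c / (1 + s + log H) ^ 3`, with an absolute constant `c > 0`.
2. In general `β ≥ μ(s, H) > 1`, or `β` is also an eigenvalue of `B`.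
3. For every `s` there is `μ(s) > 1` such that for `β < μ(s)`, for all `n`, `S` and `A`, the axis of `A`
   does not meet the fixed space of any isometry `g` with `rank (g - 1) ≤ s` and integral `χ_{A g}`
   (any `g ∈ O(L)`), unless `g` fixes the whole axis.

So in all the arithmetic orbifolds of all the lattices `L`, of all dimensions and discriminants, the
closed geodesics of length less than `log μ(s)` avoid the singular strata of codimension at most `s`
(for `s = 1` the mirrors of all reflections, with roots of arbitrarily large norm) which do not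
contain them.

Method.  The Mahler measure of `χ_B` is at most `exp d` (Busemann functions, reverse Cauchy-Schwarz
inequality), and the zeros of `χ_A` and `χ_B` nearly interlace, which bounds the height of the pair.
In 3, `d ≤ log β`, and if `β` is an eigenvalue of `A g` then `g` fixes the axis.
-/

set_option autoImplicit false

namespace Pool.Agent.Results.MP_1f45fc_nt.ShortAxes

open Polynomial Matrix

noncomputable section

/-- The symmetric bilinear form with the Gram matrix `S`. -/
def form {n : ℕ} (S : Matrix (Fin n) (Fin n) ℝ) (x y : Fin n → ℝ) : ℝ := x ⬝ᵥ (S *ᵥ y)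

/-- `B` is an isometry of the form `S` and its characteristic polynomial has integer coefficients. -/
structure IntegralIsometry {n : ℕ} (S B : Matrix (Fin n) (Fin n) ℝ) : Prop where
  isometry : Bᵀ * S * B = S
  integral : ∃ G : ℤ[X], G.map (Int.castRingHom ℝ) = B.charpoly

/-- `A` is an isometry of the symmetric form `S` with integral characteristic polynomial, with
eigenvectors `u ≠ 0` and `v` for the eigenvalues `β > 1` and `1 / β`, and `S` is positive definite on
the space of the vectors orthogonal to `u` and `v`; so `S` has signature `(n - 1, 1)`. -/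
structure Loxodromic {n : ℕ} (S A : Matrix (Fin n) (Fin n) ℝ) (u v : Fin n → ℝ) (β : ℝ) :
    Prop where
  symmetric : Sᵀ = S
  integralIsometry : IntegralIsometry S A
  one_lt : 1 < β
  ne_zero : u ≠ 0
  eigen_u : A *ᵥ u = β • u
  eigen_v : A *ᵥ v = β⁻¹ • v
  positive : ∀ y : Fin n → ℝ, y ≠ 0 → form S u y = 0 → form S v y = 0 → 0 < form S y y

lemma Loxodromic.lox {n : ℕ} {S A : Matrix (Fin n) (Fin n) ℝ} {u v : Fin n → ℝ} {β : ℝ}
    (h : Loxodromic S A u v β) : Pool.Agent.U72.NP.Lox S A u v β :=
  ⟨h.symmetric, h.integralIsometry.isometry, h.one_lt, h.ne_zero, h.eigen_u, h.eigen_v, h.positive⟩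

lemma toC_eq {n : ℕ} {B : Matrix (Fin n) (Fin n) ℝ} {G : ℤ[X]}
    (hG : G.map (Int.castRingHom ℝ) = B.charpoly) :
    Pool.Agent.H261R2.CM.toC G = (Pool.Agent.U72.NP.cx B).charpoly := by
  rw [Pool.Agent.U72.NP.cx_charpoly, ← hG, Polynomial.map_map]
  unfold Pool.Agent.H261R2.CM.toC
  congr 1

theorem result :
    (∃ c : ℝ, 0 < c ∧ ∀ (n s : ℕ) (H : ℝ) (S A B : Matrix (Fin n) (Fin n) ℝ)
      (u v x : Fin n → ℝ) (β : ℝ) (f : ℤ[X]), Loxodromic S A u v β → IntegralIsometry S B →
      f.map (Int.castRingHom ℝ) = A.charpoly → Irreducible f → A.charpoly ≠ B.charpoly →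
      (A - B).rank ≤ s → form S x x < 0 → |form S x (B *ᵥ x)| ≤ H * |form S x x| →
      c / (1 + s + Real.log H) ^ 3 ≤ Real.log β) ∧
    (∀ (s : ℕ) (H : ℝ), ∃ μ : ℝ, 1 < μ ∧ ∀ (n : ℕ) (S A B : Matrix (Fin n) (Fin n) ℝ)
      (u v x : Fin n → ℝ) (β : ℝ), Loxodromic S A u v β → IntegralIsometry S B →
      (A - B).rank ≤ s → form S x x < 0 → |form S x (B *ᵥ x)| ≤ H * |form S x x| →
      μ ≤ β ∨ ∃ w : Fin n → ℝ, w ≠ 0 ∧ B *ᵥ w = β • w) ∧
    (∀ s : ℕ, ∃ μ : ℝ, 1 < μ ∧ ∀ (n : ℕ) (S A g : Matrix (Fin n) (Fin n) ℝ)
      (u v : Fin n → ℝ) (β a b : ℝ), Loxodromic S A u v β → β < μ → gᵀ * S * g = S →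
      IntegralIsometry S (A * g) → (g - 1).rank ≤ s →
      form S (a • u + b • v) (a • u + b • v) < 0 → g *ᵥ (a • u + b • v) = a • u + b • v →
      g *ᵥ u = u ∧ g *ᵥ v = v) := by
  refine ⟨?_, ?_, ?_⟩
  · obtain ⟨c, hc, h⟩ := Pool.Agent.U72.NP.lox_rate
    refine ⟨c, hc, ?_⟩
    intro n s H S A B u v x β f hA hB hf hirr hne hr hx hH
    obtain ⟨G, hG⟩ := hB.integral
    refine h n s H S A B u v x β f G hA.lox hB.isometry (toC_eq hf) (toC_eq hG) hr hx hH hirr ?_
    rintro rfl
    exact hne (hf.symm.trans hG)
  · intro s H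
    obtain ⟨μ, hμ, h⟩ := Pool.Agent.U72.NP.lox_gap s H
    refine ⟨μ, hμ, ?_⟩
    intro n S A B u v x β hA hB hr hx hH
    obtain ⟨F, hF⟩ := hA.integralIsometry.integral
    obtain ⟨G, hG⟩ := hB.integral
    exact h n S A B u v x β F G hA.lox hB.isometry (toC_eq hF) (toC_eq hG) hr hx hH
  · intro s
    obtain ⟨μ, hμ, h⟩ := Pool.Agent.U72.NP.lox_axis s
    refine ⟨μ, hμ, ?_⟩
    intro n S A g u v β a b hA hβ hg hAg hr hx hgx
    obtain ⟨F, hF⟩ := hA.integralIsometry.integral
    obtain ⟨G, hG⟩ := hAg.integral
    rcases h n S A g u v β a b F G hA.lox hg (toC_eq hF) (toC_eq hG) hr hx hgx with h1 | h1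
    · exact absurd hβ (not_lt.mpr h1)
    · exact h1

end

end Pool.Agent.Results.MP_1f45fc_nt.ShortAxes
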