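import Mathlib
import Pool.Agent.U218.PP.A

/-!
# Parry powers of Perron numbers whose field has a large subfield in a compositum `F ℚ^ab`

Let `F` be a finite or infinite Galois extension of `ℚ` whose Galois group has exponent dividing `m`
(not abelian in general), and let `E = F (μ_∞)`, that is `F ℚ^ab` by the theorem of Kronecker and
Weber.  Let `β` be a Perron number of degree `n`.

1. If the minimal polynomial of `β` has a factor of degree `D ≥ 1` over `E` and
   `(C m) ^ (26 m) D (1 + log D) ^ (4 m + 5) log β < n`, where `C` is an absolute constant, then `β ^ k`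
   is a Parry number for only finitely many `k`.
2. For all `ε > 0` there is `c > 0` such that for all `B` and all large `n`: if `β ≤ B`, if the minimal
   polynomial of `β` has a factor of positive degree at most `n ^ (1 - ε)` over `E`, and
   `m log log 3n ≤ c log 3n`, then `β ^ k` is a Parry number for only finitely many `k`.
3. For all `m`, `ε > 0` and `B` there are only finitely many Perron numbers `β ≤ B` such that
   infinitely many powers of `β` are Parry numbers (Salem or Pisot numbers) and the field `ℚ(β)`, of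
   degree `n`, has a subfield `L` of degree at least `n ^ ε` which embeds into a field `E = F ℚ^ab` as
   above; for instance `L` any compositum of an abelian field and a Galois field of exponent `m`,
   or any subfield of such a compositum.

Nothing is assumed about the rest of the field `ℚ(β)`, and `L` need not be Galois.

Method.  If infinitely many powers of `β` are Parry numbers, then all the other conjugates of `β` are
in the closed unit disc, so that `β` is the Mahler measure of its minimal polynomial.  The theorem is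
thus a consequence of the relative Dobrowolski theorem over `F ℚ^ab` (energy inequality for
several twisted copies of an orbit, with a case distinction according to the ramification).
-/

set_option autoImplicit false

universe u

open Polynomial Module IntermediateField

namespace Pool.Agent.Results.MP_1f45fc_nt.SubfieldsOfComposita

/-- `β > 1` is an algebraic integer whose other conjugates have modulus less than `β`. -/
def IsPerron (β : ℝ) : Prop :=
  1 < β ∧ IsIntegral ℤ β ∧
    ∀ z : ℂ, aeval z (minpoly ℤ β) = 0 → z ≠ (β : ℂ) → ‖z‖ < β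

/-- The set of the `k ≥ 1` such that `β ^ k` is a Parry number, that is, the orbit of `1` under
`x ↦ fract (β ^ k * x)` is finite. -/
def parryPowers (β : ℝ) : Set ℕ :=
  {k : ℕ | 1 ≤ k ∧ Set.Finite (Set.range (fun j : ℕ =>
    (fun x : ℝ => Int.fract (β ^ k * x))^[j] (1 : ℝ)))}

/-- The degree of `β`. -/
noncomputable def deg (β : ℝ) : ℕ := (minpoly ℤ β).natDegree

/-- `E` is generated by roots of unity over a field `F` which is a finite or infinite Galois
extension of `ℚ` such that `σ ^ m = 1` for all `σ` in its Galois group. -/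
def Composita (m : ℕ) (E : Type u) [Field E] : Prop :=
  ∃ (F : Type u) (_ : Field F) (_ : CharZero F) (_ : Algebra F E),
    (IsGalois ℚ F ∧ ∀ σ : F ≃ₐ[ℚ] F, σ ^ m = 1) ∧
    IntermediateField.adjoin F {ζ : E | ∃ k : ℕ, 0 < k ∧ ζ ^ k = 1} = ⊤

/-- The minimal polynomial of `β` has a factor of degree `D` over a field `E` with
`Composita m E`. -/
def Factor (m : ℕ) (β : ℝ) (D : ℕ) : Prop :=
  ∃ (E : Type u) (_ : Field E), Composita m E ∧
    ∃ g : E[X], g ∣ (minpoly ℤ β).map (Int.castRingHom E) ∧ g.natDegree = D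

/-- The field `ℚ(β)` has a subfield of degree at least `(deg β) ^ ε` which embeds into a field `E`
with `Composita m E`. -/
def LargeSubfield (m : ℕ) (ε : ℝ) (β : ℝ) : Prop :=
  ∃ L : IntermediateField ℚ ℝ, L ≤ ℚ⟮β⟯ ∧ (deg β : ℝ) ^ ε ≤ finrank ℚ L ∧
    ∃ (E : Type u) (_ : Field E), Composita m E ∧ Nonempty (L →+* E)

lemma Composita.charZero {m : ℕ} {E : Type u} [Field E] (h : Composita m E) : CharZero E := by
  obtain ⟨F, _, _, _, _⟩ := h
  exact charZero_of_injective_algebraMap (algebraMap F E).injective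

theorem part2 (ε : ℝ) (hε : 0 < ε) : ∃ c : ℝ, 0 < c ∧ ∀ B : ℝ, ∃ N : ℕ, ∀ m : ℕ, 0 < m →
    ∀ β : ℝ, IsPerron β → β ≤ B → N ≤ deg β →
      m * Real.log (Real.log (3 * deg β)) ≤ c * Real.log (3 * deg β) →
      ∀ D : ℕ, 0 < D → Factor.{u} m β D → (D : ℝ) ≤ (deg β : ℝ) ^ (1 - ε) →
        (parryPowers β).Finite := by
  obtain ⟨c, hc, κ, hκ, h⟩ := Pool.Agent.U218.PP.thm2.{u} ε hε
  refine ⟨c, hc, fun B => ?_⟩
  have ht : Filter.Tendsto (fun n : ℕ => κ * (n : ℝ) ^ (ε / 2)) Filter.atTop Filter.atTop :=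
    ((tendsto_rpow_atTop (by positivity)).comp tendsto_natCast_atTop_atTop).const_mul_atTop hκ
  obtain ⟨N, hN⟩ := Filter.eventually_atTop.mp (ht.eventually_gt_atTop (Real.log B))
  refine ⟨N, ?_⟩
  rintro m hm β ⟨h1, h2, h3⟩ hB hNβ hmn D hD ⟨E, _, hE, g, hg, rfl⟩ hDn
  by_contra hinf
  have := hE.charZero
  obtain ⟨F, _, _, _, hF, hadj⟩ := hE
  obtain ⟨F', hF1, hF2, hF3⟩ := Pool.Agent.U218.RA.bridge hF.1 hF.2 hadj
  have h4 := h m hm β h1 h2 h3 hinf hmn E F' hF2 hF3 g hg hD hDn
  have h5 := hN _ hNβ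
  have h6 : Real.log β ≤ Real.log B := Real.log_le_log (by linarith) hB
  unfold deg at h5
  linarith

/-- **Parry powers and large subfields of composita `F ℚ^ab`.** -/
theorem result :
    (∃ C : ℝ, 1 ≤ C ∧ ∀ m : ℕ, 0 < m → ∀ β : ℝ, IsPerron β →
      ∀ D : ℕ, 0 < D → Factor.{u} m β D →
        (C * m) ^ (26 * m) * D * (1 + Real.log D) ^ (4 * m + 5) * Real.log β < deg β →
        (parryPowers β).Finite) ∧
    (∀ ε : ℝ, 0 < ε → ∃ c : ℝ, 0 < c ∧ ∀ B : ℝ, ∃ N : ℕ, ∀ m : ℕ, 0 < m →
      ∀ β : ℝ, IsPerron β → β ≤ B → N ≤ deg β →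
        m * Real.log (Real.log (3 * deg β)) ≤ c * Real.log (3 * deg β) →
        ∀ D : ℕ, 0 < D → Factor.{u} m β D → (D : ℝ) ≤ (deg β : ℝ) ^ (1 - ε) →
          (parryPowers β).Finite) ∧
    (∀ (m : ℕ) (ε B : ℝ), 0 < m → 0 < ε →
      {β : ℝ | IsPerron β ∧ β ≤ B ∧ LargeSubfield.{u} m ε β ∧
        (parryPowers β).Infinite}.Finite) := by
  refine ⟨?_, fun ε hε => part2 ε hε, ?_⟩
  · obtain ⟨C, hC, h⟩ := Pool.Agent.U218.PP.thm1.{u}
    refine ⟨C, hC, ?_⟩
    rintro m hm β ⟨h1, h2, h3⟩ D hD ⟨E, _, hE, g, hg, rfl⟩ hlt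
    by_contra hinf
    have := hE.charZero
    obtain ⟨F, _, _, _, hF, hadj⟩ := hE
    obtain ⟨F', hF1, hF2, hF3⟩ := Pool.Agent.U218.RA.bridge hF.1 hF.2 hadj
    have h4 := h m hm β h1 h2 h3 hinf E F' hF2 hF3 g hg hD
    have hC0 : 0 < C := by linarith
    have hm0 : (0 : ℝ) < m := by exact_mod_cast hm
    have hD0 : (1 : ℝ) ≤ g.natDegree := by exact_mod_cast hD
    have hl : 0 ≤ Real.log (g.natDegree : ℝ) := Real.log_nonneg hD0
    rw [div_le_iff₀ (by positivity)] at h4
    unfold deg at hlt
    linarith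
  · intro m ε B hm hε
    obtain ⟨c, hc, h⟩ := part2.{u} ε hε
    obtain ⟨N, hN⟩ := h B
    have ht : ∀ᶠ n : ℕ in Filter.atTop,
        m * Real.log (Real.log (3 * n)) ≤ c * Real.log (3 * (n : ℝ)) := by
      have h1 : Filter.Tendsto (fun n : ℕ => Real.log (3 * (n : ℝ))) Filter.atTop Filter.atTop :=
        Real.tendsto_log_atTop.comp
          (tendsto_natCast_atTop_atTop.const_mul_atTop (by norm_num : (0 : ℝ) < 3))
      have h2 : (fun x : ℝ => Real.log x) =o[Filter.atTop] (fun x : ℝ => x) :=
        Real.isLittleO_log_id_atTop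
      have hm0 : (0 : ℝ) < m := by exact_mod_cast hm
      have h3 := (h2.comp_tendsto h1).bound (show (0 : ℝ) < c / m by positivity)
      filter_upwards [h3, h1.eventually_ge_atTop 0] with n hn hn0
      simp only [Function.comp_apply, Real.norm_eq_abs] at hn
      rw [abs_of_nonneg hn0] at hn
      have h4 := (le_abs_self _).trans hn
      calc (m : ℝ) * Real.log (Real.log (3 * n)) ≤ m * (c / m * Real.log (3 * n)) :=
            mul_le_mul_of_nonneg_left h4 hm0.le
        _ = c * Real.log (3 * n) := by field_simp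
    obtain ⟨N', hN'⟩ := Filter.eventually_atTop.mp ht
    refine (Pool.Agent.U218.PP.finite_of_natDegree_le (max N N') B).subset ?_
    rintro β ⟨hP, hB, ⟨L, hL, hLn, E, _, hE, ⟨φ⟩⟩, hinf⟩
    obtain ⟨h1, h2, h3⟩ := id hP
    have hM := Pool.Agent.H389R3.PR.mahler_eq h1 h2
      (fun z hz hne => Pool.Agent.H389R3.PR.conj_le_one h1 h2 h3 hinf hz hne)
    refine ⟨h2, ?_, by rw [hM]; exact hB⟩
    by_contra hcon
    push Not at hcon
    have := hE.charZero
    obtain ⟨g, hg, hg0, hgn⟩ := Pool.Agent.U218.PP.exists_factor h2 L hL φ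
    refine hinf (hN m hm β hP hB ((le_max_left _ _).trans hcon.le)
      (hN' _ ((le_max_right _ _).trans hcon.le)) g.natDegree hg0 ⟨E, _, hE, g, hg, rfl⟩ ?_)
    have hn0 : (0 : ℝ) < deg β := by
      have : 0 < (minpoly ℤ β).natDegree := minpoly.natDegree_pos h2
      exact_mod_cast this
    have h4 : (finrank ℚ L : ℝ) * g.natDegree = deg β := by
      unfold deg
      exact_mod_cast hgn
    rw [Real.rpow_sub hn0, Real.rpow_one, le_div_iff₀ (by positivity)]
    calc (g.natDegree : ℝ) * (deg β : ℝ) ^ ε ≤ g.natDegree * finrank ℚ L :=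
          mul_le_mul_of_nonneg_left hLn (by positivity)
      _ = deg β := by rw [mul_comm]; exact h4

end Pool.Agent.Results.MP_1f45fc_nt.SubfieldsOfComposita
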